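import Pool.Agent.PosEnergy.Lib

/-!
# Edge addition can decrease the positive `p`-energy, for every real `p > 2`

For every real `p > 2` and every `K`, on every sufficiently large number `n` of vertices there is a graph
`G` with two distinct non-adjacent vertices `u, v` such that the sum of the `p`-th powers of the positive
adjacency eigenvalues of `G + uv` is smaller than that of `G` by more than `K`; for arbitrarily large `n`
such a `G` can be chosen connected.
-/

set_option autoImplicit false
open Classical

namespace Pool.Agent.Results.MP_eaf560_co.AllExponents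

/-- For every real `p > 2` (in particular for every `p ≥ 3`) and every real `K`:
(1) for all large `n` there are a graph `G` on `n` vertices and distinct non-adjacent `u, v` such that adding the
edge `uv` lowers the sum of the `p`-th powers of the positive adjacency eigenvalues by more than `K`;
(2) for arbitrarily large `n` the same holds with a connected graph `G`. -/
theorem result (p : ℝ) (hp : 2 < p) (K : ℝ) :
    (∃ n₀ : ℕ, ∀ n : ℕ, n₀ ≤ n → ∃ (G : SimpleGraph (Fin n)) (u v : Fin n),
      u ≠ v ∧ ¬ G.Adj u v ∧
        ((((G ⊔ SimpleGraph.edge u v).adjMatrix ℝ).charpoly.roots.filter (fun x => 0 < x)).map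
            (fun x => x ^ p)).sum + K <
          (((G.adjMatrix ℝ).charpoly.roots.filter (fun x => 0 < x)).map (fun x => x ^ p)).sum) ∧
    (∀ n₁ : ℕ, ∃ n : ℕ, n₁ ≤ n ∧ ∃ (G : SimpleGraph (Fin n)) (u v : Fin n),
      G.Connected ∧ u ≠ v ∧ ¬ G.Adj u v ∧
        ((((G ⊔ SimpleGraph.edge u v).adjMatrix ℝ).charpoly.roots.filter (fun x => 0 < x)).map
            (fun x => x ^ p)).sum + K <
          (((G.adjMatrix ℝ).charpoly.roots.filter (fun x => 0 < x)).map (fun x => x ^ p)).sum) := by
  have key : ∀ (n : ℕ) (G : SimpleGraph (Fin n)) [DecidableRel G.Adj],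
      Pool.Agent.PosEnergy.posEnergy p G =
      (((G.adjMatrix ℝ).charpoly.roots.filter (fun x => 0 < x)).map (fun x => x ^ p)).sum := by
    intro n G _
    exact Pool.Agent.PosEnergy.posEnergy_eq_plain p G
  have h := Pool.Agent.PosEnergy.main p hp K
  constructor
  · obtain ⟨n₀, h1⟩ := h.1
    refine ⟨n₀, fun n hn => ?_⟩
    obtain ⟨G, u, v, h2, h3, h4⟩ := h1 n hn
    rw [key n (G ⊔ SimpleGraph.edge u v), key n G] at h4
    exact ⟨G, u, v, h2, h3, h4⟩
  · intro n₁
    obtain ⟨n, hn, G, u, v, h1, h2, h3, h4⟩ := h.2 n₁
    rw [key n (G ⊔ SimpleGraph.edge u v), key n G] at h4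
    exact ⟨n, hn, G, u, v, h1, h2, h3, h4⟩

end Pool.Agent.Results.MP_eaf560_co.AllExponents
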